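import Mathlib
import Pool.Agent.Helper30.ProP.Goals

set_option autoImplicit false
set_option linter.unusedSectionVars false

/-! Packet G (open subgroups) of the nilpotent-by-abelian case of MP_ac806c_lc. -/

namespace Pool.Agent.Helper51.ProP2

open Pool.Agent.Helper85.ProP Pool.Agent.Helper30.ProP Filter Topology

universe u

theorem stmtOpen : StmtOpen.{u} := by
  intro p _ G _ _ _ _ _ _ hp W hWo hWn
  classical
  have hWc : IsClosed (W : Set G) := Subgroup.isClosed_of_isOpen W hWo
  have hWfin : Finite (G ⧸ W) := Subgroup.quotient_finite_of_isOpen W hWo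
  have hWfi : W.FiniteIndex := Subgroup.finiteIndex_of_finite_quotient
  refine ⟨?_, ?_, ?_⟩
  · intro V _ hVo
    have hV'o : IsOpen ((V.map W.subtype : Subgroup G) : Set G) := by
      have h6 : ((V.map W.subtype : Subgroup G) : Set G) = Subtype.val '' (V : Set W) := rfl
      rw [h6]
      exact hWo.isOpenEmbedding_subtypeVal.isOpenMap _ hVo
    obtain ⟨O, hO⟩ := ProfiniteGrp.exist_openNormalSubgroup_sub_open_nhds_of_one hV'o
      (one_mem (V.map W.subtype))
    obtain ⟨n, hn⟩ := hp O.toSubgroup O.isNormal' O.isOpen'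
    have h1 : (V.map W.subtype).index ∣ p ^ n := by
      rw [← hn]
      exact Subgroup.index_dvd_of_le hO
    have h2 : (V.map W.subtype).relIndex W * W.index = (V.map W.subtype).index :=
      Subgroup.relIndex_mul_index (Subgroup.map_subtype_le V)
    have h3 : (V.map W.subtype).relIndex W = V.index := by
      rw [Subgroup.relIndex]
      congr 1
      exact Subgroup.comap_map_eq_self_of_injective W.subtype_injective V
    have h4 : V.index ∣ p ^ n := by
      rw [← h3]
      exact (Dvd.intro _ h2).trans h1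
    obtain ⟨k, -, hk⟩ := (Nat.dvd_prime_pow (Fact.out : p.Prime)).1 h4
    exact ⟨k, hk⟩
  · rintro ⟨S, hS⟩
    set H : Subgroup G := Subgroup.closure (S : Set G) with hH
    have hHfg : Group.FG H := by
      rw [Group.fg_iff_subgroup_fg]
      exact ⟨S, rfl⟩
    have hfg : Group.FG (W.subgroupOf H) := inferInstance
    obtain ⟨T, hT⟩ := hfg.out
    let φ : (W.subgroupOf H) →* W :=
      { toFun := fun t => ⟨t.1.1, t.2⟩
        map_one' := rfl
        map_mul' := fun _ _ => rfl }
    refine ⟨T.image φ, ?_⟩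
    rw [eq_top_iff]
    intro w _
    have hsub : ∀ v : W, v.1 ∈ H → v ∈ Subgroup.closure ((T.image φ : Finset W) : Set W) := by
      intro v hv
      have h1 : φ ⟨⟨v.1, hv⟩, v.2⟩ = v := rfl
      rw [Finset.coe_image, ← MonoidHom.map_closure, hT]
      exact ⟨⟨⟨v.1, hv⟩, v.2⟩, trivial, h1⟩
    show w ∈ closure ((Subgroup.closure ((T.image φ : Finset W) : Set W) : Subgroup W) : Set W)
    rw [mem_closure_iff]
    intro U hU hwU
    obtain ⟨U', hU', rfl⟩ := isOpen_induced_iff.1 hU
    have hd : (w.1 : G) ∈ closure (H : Set G) := by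
      have h1 : (w.1 : G) ∈ H.topologicalClosure := by
        rw [hS]; trivial
      exact h1
    rw [mem_closure_iff] at hd
    obtain ⟨x, ⟨hx1, hx2⟩, hx3⟩ := hd (U' ∩ W) (hU'.inter hWo) ⟨hwU, w.2⟩
    exact ⟨⟨x, hx2⟩, hx1, hsub ⟨x, hx2⟩ hx3⟩
  · rintro ⟨r, hr⟩
    let e : Fin (Nat.card (G ⧸ W)) ≃ G ⧸ W := (Finite.equivFin (G ⧸ W)).symm
    refine ⟨r + Nat.card (G ⧸ W), ?_⟩
    intro H hH
    have hHW : IsClosed ((H.subgroupOf W : Subgroup W) : Set W) :=
      hH.preimage continuous_subtype_val
    obtain ⟨f, hf⟩ := hr (H.subgroupOf W) hHW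
    have hex : ∀ j : Fin (Nat.card (G ⧸ W)), ∃ g ∈ H, (∃ h ∈ H, (h : G ⧸ W) = e j) →
        (g : G ⧸ W) = e j := by
      intro j
      by_cases h : ∃ h ∈ H, (h : G ⧸ W) = e j
      · obtain ⟨g, hg, hgj⟩ := h
        exact ⟨g, hg, fun _ => hgj⟩
      · exact ⟨1, H.one_mem, fun h' => absurd h' h⟩
    choose g hgH hg using hex
    refine ⟨Fin.append (fun a => (f a).1) g, ?_⟩
    have hfH : ∀ a, (f a).1 ∈ H := by
      intro a
      have h1 : f a ∈ H.subgroupOf W := by
        rw [← hf]
        exact Subgroup.le_topologicalClosure _ (Subgroup.subset_closure ⟨a, rfl⟩)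
      exact h1
    apply le_antisymm
    · refine Subgroup.topologicalClosure_minimal _ ?_ hH
      rw [Subgroup.closure_le]
      rintro _ ⟨i, rfl⟩
      refine Fin.addCases (fun i => ?_) (fun i => ?_) i
      · rw [Fin.append_left]
        exact hfH i
      · rw [Fin.append_right]
        exact hgH i
    · set L := (Subgroup.closure (Set.range (Fin.append (fun a => (f a).1) g))).topologicalClosure
        with hL
      have hLc : IsClosed (L : Set G) := Subgroup.isClosed_topologicalClosure _
      have hfL : ∀ a, (f a).1 ∈ L := fun a => Subgroup.le_topologicalClosure _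
        (Subgroup.subset_closure ⟨Fin.castAdd _ a, Fin.append_left _ _ _⟩)
      have hgL : ∀ j, g j ∈ L := fun j => Subgroup.le_topologicalClosure _
        (Subgroup.subset_closure ⟨Fin.natAdd _ j, Fin.append_right _ _ _⟩)
      have hWL : H.subgroupOf W ≤ L.subgroupOf W := by
        rw [← hf]
        refine Subgroup.topologicalClosure_minimal _ ?_ (hLc.preimage continuous_subtype_val)
        rw [Subgroup.closure_le]
        rintro _ ⟨a, rfl⟩
        exact hfL a
      intro h hh
      have h1 := hg (e.symm (h : G ⧸ W)) ⟨h, hh, by rw [Equiv.apply_symm_apply]⟩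
      rw [Equiv.apply_symm_apply] at h1
      set j := e.symm (h : G ⧸ W)
      have h2 : (g j)⁻¹ * h ∈ W := QuotientGroup.eq.1 h1
      have h3 : (g j)⁻¹ * h ∈ H := H.mul_mem (H.inv_mem (hgH j)) hh
      have h4 : (⟨(g j)⁻¹ * h, h2⟩ : W) ∈ L.subgroupOf W := hWL h3
      have h5 : g j * ((g j)⁻¹ * h) ∈ L := L.mul_mem (hgL j) h4
      rwa [mul_inv_cancel_left] at h5

end Pool.Agent.Helper51.ProP2
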