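import Mathlib
import Pool.Agent.Helper30.ProP.Goals
import Pool.Agent.Helper27.ProP.Quo
import Pool.Agent.Helper79.ProP.T1

set_option autoImplicit false
set_option linter.unusedSectionVars false

/-! Packet B (ranks) of the nilpotent-by-abelian case of MP_ac806c_lc. -/

namespace Pool.Agent.Helper51.ProP2

open Pool.Agent.Helper85.ProP Pool.Agent.Helper27.ProP Pool.Agent.Helper30.ProP Filter Topology

universe u

theorem stmtRk : StmtRk.{u} := by
  intro p _ G _ _ _ _ _ _ hp K L hKn hK hLn hL hKL hcm hfg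
  classical
  have hLc : CompactSpace L := isCompact_iff_compactSpace.1 hL.isCompact
  set K' : Subgroup L := K.subgroupOf L with hK'
  have hK'n : K'.Normal := inferInstance
  have hK'c : IsClosed (K' : Set L) := hK.preimage continuous_subtype_val
  have : T2Space (L ⧸ K') := inferInstance
  let : CommGroup (L ⧸ K') := { (inferInstance : Group (L ⧸ K')) with
    mul_comm := by
      intro a b
      induction a using QuotientGroup.induction_on with
      | H a =>
      induction b using QuotientGroup.induction_on with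
      | H b =>
      have h : cm a b ∈ K' := by
        rw [hK', Subgroup.mem_subgroupOf]
        exact hcm a.1 a.2 b.1 b.2
      have h2 : ((cm a b : L) : L ⧸ K') = 1 := (QuotientGroup.eq_one_iff _).2 h
      have h3 : (a : L ⧸ K') * b * (a : L ⧸ K')⁻¹ * (b : L ⧸ K')⁻¹ = 1 := h2
      exact commutatorElement_eq_one_iff_mul_comm.1 h3 }
  have : IsTopologicalAddGroup (Additive (L ⧸ K')) := inferInstance
  have : T2Space (Additive (L ⧸ K')) := inferInstanceAs (T2Space (L ⧸ K'))
  obtain ⟨M, hM⟩ := exists_zp Pool.Agent.Helper79.ProP.stmtT1 p (Additive (L ⧸ K')) (by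
    intro V hV h0
    have hV' : IsOpen ((fun g : L => (Additive.ofMul (g : L ⧸ K'))) ⁻¹' V) :=
      hV.preimage QuotientGroup.continuous_mk
    obtain ⟨W, hW, hWV⟩ := isOpen_induced_iff.1 hV'
    have h1W : (1 : G) ∈ W := by
      have : (1 : L) ∈ ((fun g : L => (Additive.ofMul (g : L ⧸ K'))) ⁻¹' V) := h0
      rw [← hWV] at this
      exact this
    obtain ⟨O, hO⟩ := ProfiniteGrp.exist_openNormalSubgroup_sub_open_nhds_of_one hW h1W
    have hOn := O.isNormal'
    refine ⟨Subgroup.toAddSubgroup ((O.toSubgroup.subgroupOf L).map (QuotientGroup.mk' K')),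
      ?_, ?_, ?_⟩
    · exact QuotientGroup.isOpenMap_coe _ (O.isOpen'.preimage continuous_subtype_val)
    · rintro _ ⟨g, hg, rfl⟩
      have h5 : g ∈ (Subtype.val ⁻¹' W : Set L) := hO hg
      rw [hWV] at h5
      exact h5
    · obtain ⟨n, hn⟩ := hp O.toSubgroup O.isNormal' O.isOpen'
      refine ⟨n, ?_⟩
      intro b
      obtain ⟨g, hg⟩ := QuotientGroup.mk_surjective (Additive.toMul b)
      refine ⟨g ^ p ^ n, ?_, ?_⟩
      · have := O.toSubgroup.pow_index_mem g.1
        rw [hn] at this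
        exact this
      · show ((g ^ p ^ n : L) : L ⧸ K') = Additive.toMul (p ^ n • b)
        rw [toMul_nsmul, ← hg, QuotientGroup.mk_pow])
  have himg : ∀ N : Subgroup L, IsClosed (N : Set L) →
      IsClosed ((Subgroup.toAddSubgroup (N.map (QuotientGroup.mk' K')) :
        AddSubgroup (Additive (L ⧸ K'))) : Set (Additive (L ⧸ K'))) := by
    intro N hN
    exact (hN.isCompact.image QuotientGroup.continuous_mk).isClosed
  obtain ⟨F, hFL, hF⟩ := hfg
  let e := F.equivFin.symm
  set s : Fin F.card → Additive (L ⧸ K') := fun i =>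
    Additive.ofMul (((⟨(e i).1, hFL (e i).2⟩ : L) : L ⧸ K')) with hs
  have hspan : Submodule.span ℤ_[p] (Set.range s) = ⊤ := by
    have hcl := closed_span hM s
    rw [eq_top_iff]
    intro b _
    obtain ⟨g, hg⟩ := QuotientGroup.mk_surjective (Additive.toMul b)
    let N : Subgroup L := (AddSubgroup.toSubgroup
      (Submodule.span ℤ_[p] (Set.range s)).toAddSubgroup).comap (QuotientGroup.mk' K')
    have hN : IsClosed (N : Set L) := hcl.preimage QuotientGroup.continuous_mk
    have hN' : IsClosed ((N.map L.subtype : Subgroup G) : Set G) := by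
      have h6 : ((N.map L.subtype : Subgroup G) : Set G) = Subtype.val '' (N : Set L) := rfl
      rw [h6]
      exact hL.isClosedEmbedding_subtypeVal.isClosedMap _ hN
    have h7 : L ≤ N.map L.subtype := by
      refine hF _ hN' ?_ ?_
      · intro k hk
        refine ⟨⟨k, hKL hk⟩, ?_, rfl⟩
        show Additive.ofMul (((⟨k, hKL hk⟩ : L) : L ⧸ K')) ∈ Submodule.span ℤ_[p] (Set.range s)
        have h8 : ((⟨k, hKL hk⟩ : L) : L ⧸ K') = 1 := (QuotientGroup.eq_one_iff _).2 hk
        rw [h8]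
        exact Submodule.zero_mem _
      · intro f hf
        refine ⟨⟨f, hFL hf⟩, ?_, rfl⟩
        show Additive.ofMul (((⟨f, hFL hf⟩ : L) : L ⧸ K')) ∈ Submodule.span ℤ_[p] (Set.range s)
        refine Submodule.subset_span ⟨e.symm ⟨f, hf⟩, ?_⟩
        simp only [hs, Equiv.apply_symm_apply]
    obtain ⟨g', hg', hgg⟩ := h7 g.2
    have h9 : g' = g := Subtype.ext hgg
    rw [h9] at hg'
    have hg3 : Additive.ofMul ((g : L) : L ⧸ K') ∈ Submodule.span ℤ_[p] (Set.range s) := hg'
    rw [hg] at hg3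
    exact hg3
  refine ⟨F.card, ?_⟩
  intro H hH
  have hHL : IsClosed ((H.subgroupOf L : Subgroup L) : Set L) := hH.preimage continuous_subtype_val
  obtain ⟨c, hc1, hc2⟩ := pid_gen s hspan (toSub hM _ (himg (H.subgroupOf L) hHL))
  have hc3 : ∀ i, ∃ t ∈ H.subgroupOf L, ((t : L) : L ⧸ K') = Additive.toMul (c i) :=
    fun i => hc1 i
  choose t ht1 ht2 using hc3
  refine ⟨fun i => (t i).1, fun i => ⟨ht1 i, (t i).2⟩, ?_⟩
  intro N hN hHK htN h hh
  have hHN : IsClosed (((H ⊓ N).subgroupOf L : Subgroup L) : Set L) :=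
    (hH.inter hN).preimage continuous_subtype_val
  have h5 : Additive.ofMul (((⟨h, hh.2⟩ : L) : L) : L ⧸ K') ∈
      toSub hM _ (himg (H.subgroupOf L) hHL) := ⟨⟨h, hh.2⟩, hh.1, rfl⟩
  have h6 : Submodule.span ℤ_[p] (Set.range c) ≤
      toSub hM _ (himg ((H ⊓ N).subgroupOf L) hHN) := by
    rw [Submodule.span_le]
    rintro _ ⟨i, rfl⟩
    exact ⟨t i, ⟨ht1 i, htN i⟩, ht2 i⟩
  obtain ⟨l, hl, hl2⟩ := h6 (hc2 h5)
  have h10 : l⁻¹ * (⟨h, hh.2⟩ : L) ∈ K' := QuotientGroup.eq.1 hl2
  have h11 : (l.1)⁻¹ * h ∈ K := h10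
  have h12 : (l.1)⁻¹ * h ∈ H := H.mul_mem (H.inv_mem hl.1) hh.1
  have h13 : (l.1)⁻¹ * h ∈ N := hHK ⟨h12, h11⟩
  have h14 : l.1 * ((l.1)⁻¹ * h) ∈ N := N.mul_mem hl.2 h13
  rwa [mul_inv_cancel_left] at h14

end Pool.Agent.Helper51.ProP2
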